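import Pool.Agent.W_828d9b_h4.Final

/-!
# MP_828d9b_al, Q1: a counterexample

There are a cocompact lattice Γ in SU(2,1) (an arithmetic group, of finite index in the
determinant one part of the Deligne-Mostow group attached to five points with weights 2/5) and a
homomorphism ρ from Γ to SL_6 over the field of 11-adic numbers which is injective, even modulo
scalars, has Zariski dense image, and whose image is not contained in any compact set.
So Q1 has a negative answer.  The definitions used are in `W_828d9b_h4/Statement.lean`.
-/

namespace Pool.Agent.Results.MP_828d9b_al.Counterexample

open Matrix W828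

/-- Negative answer to Q1 of MP_828d9b_al. -/
theorem result : ∃ (Γ : Subgroup (SU 2)) (ρ : Γ →* SLQ 6 11),
    IsCocompactLattice Γ ∧ Faithful ρ ∧ ZariskiDense ρ ∧ ¬ RelativelyCompact ρ :=
  main

end Pool.Agent.Results.MP_828d9b_al.Counterexample
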